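import Pool.Agent.Lib.MP_17d4d1_pr.S.Iface

set_option autoImplicit false

/-!
# Module THREE (MP_17d4d1_pr)
-/

namespace Pool.Agent.Lib.MP_17d4d1_pr.S.H28

open Finset Pool.Agent.Lib.MP_17d4d1_pr Pool.Agent.Lib.MP_17d4d1_pr.S

variable {X : Type} [Fintype X] [DecidableEq X]

theorem ind_eq_one {h : Finset X → ℝ} (hh : Ind h) {A B : Finset X} (hA : h A = 1)
    (hAB : A ⊆ B) : h B = 1 := by
  rcases hh.val B with h0 | h1
  · have := hh.mono hAB
    rw [hA, h0] at this
    linarith
  · exact h1

theorem ind_eq_zero {h : Finset X → ℝ} (hh : Ind h) {A B : Finset X} (hB : h B = 0)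
    (hAB : A ⊆ B) : h A = 0 := by
  rcases hh.val A with h0 | h1
  · exact h0
  · have := hh.mono hAB
    rw [h1, hB] at this
    linarith

theorem three_aux (n : ℕ) : ∀ (Y : Finset X) (h : Finset X → ℝ), Y.card = n → n ≤ 3 → Ind h →
    (∀ A, h (A ∩ Y) = h A) → Cls h := by
  induction n with
  | zero =>
    intro Y h hY _ hh hdep
    have hY0 : Y = ∅ := Finset.card_eq_zero.1 hY
    have h1 : h = fun _ => h ∅ := by
      funext A
      rw [← hdep A, hY0, Finset.inter_empty]
    rw [h1]
    refine Cls.const _ ?_
    rcases hh.val ∅ with h0 | h0 <;> rw [h0]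
    exact zero_le_one
  | succ n ih =>
    intro Y h hY hn hh hdep
    by_cases h0 : h ∅ = 1
    · have h1 : h = fun _ => 1 := funext fun A => ind_eq_one hh h0 (Finset.empty_subset A)
      rw [h1]
      exact Cls.const _ zero_le_one
    have h0' : h ∅ = 0 := (hh.val ∅).resolve_right h0
    by_cases hY1 : h Y = 0
    · have h1 : h = fun _ => 0 := by
        funext A
        rw [← hdep A]
        exact ind_eq_zero hh hY1 Finset.inter_subset_right
      rw [h1]
      exact Cls.const _ le_rfl
    have hY1' : h Y = 1 := (hh.val Y).resolve_left hY1
    by_cases hv : ∃ v ∈ Y, h {v} = 1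
    · obtain ⟨v, hvY, hv1⟩ := hv
      have hu : Cls fun A => h (A.erase v) := by
        refine ih (Y.erase v) _ (by rw [Finset.card_erase_of_mem hvY, hY]; omega) (by omega)
          ⟨fun A => hh.val _, fun A B hAB => hh.mono (Finset.erase_subset_erase v hAB)⟩ ?_
        intro A
        change h ((A ∩ Y.erase v).erase v) = h (A.erase v)
        rw [← hdep ((A ∩ Y.erase v).erase v), ← hdep (A.erase v)]
        congr 1
        ext x
        simp only [Finset.mem_inter, Finset.mem_erase]
        tauto
      have h1 : h = fun A => if v ∈ A then 1 else h (A.erase v) := by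
        funext A
        by_cases hA : v ∈ A
        · rw [if_pos hA]
          exact ind_eq_one hh hv1 (Finset.singleton_subset_iff.2 hA)
        · rw [if_neg hA, Finset.erase_eq_of_notMem hA]
      rw [h1]
      refine Cls.or v 1 _ hu fun A => ?_
      rcases hh.val (A.erase v) with h2 | h2 <;> rw [h2]
      exact zero_le_one
    by_cases hw : ∃ v ∈ Y, h (Y.erase v) = 0
    · obtain ⟨v, hvY, hv0⟩ := hw
      have hu : Cls fun A => h (insert v A) := by
        refine ih (Y.erase v) _ (by rw [Finset.card_erase_of_mem hvY, hY]; omega) (by omega)
          ⟨fun A => hh.val _, fun A B hAB => hh.mono (Finset.insert_subset_insert v hAB)⟩ ?_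
        intro A
        change h (insert v (A ∩ Y.erase v)) = h (insert v A)
        rw [← hdep (insert v (A ∩ Y.erase v)), ← hdep (insert v A)]
        congr 1
        ext x
        simp only [Finset.mem_inter, Finset.mem_insert, Finset.mem_erase]
        tauto
      have h1 : h = (fun A => if v ∈ A then (1 : ℝ) else 0) * fun A => h (insert v A) := by
        funext A
        rw [Pi.mul_apply]
        by_cases hA : v ∈ A
        · rw [if_pos hA, one_mul, Finset.insert_eq_of_mem hA]
        · rw [if_neg hA, zero_mul, ← hdep A]
          refine ind_eq_zero hh hv0 fun x hx => ?_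
          rw [Finset.mem_inter] at hx
          rw [Finset.mem_erase]
          exact ⟨fun h => hA (h ▸ hx.1), hx.2⟩
      rw [h1]
      refine Cls.mul _ _ (fun A => ?_) (fun A B hAB => ?_) (fun A B => ?_) hu
      · split_ifs <;> norm_num
      · by_cases hA : v ∈ A
        · have hB : v ∈ B := hAB hA
          simp only [if_pos hA, if_pos hB]
          exact le_rfl
        · simp only [if_neg hA]
          split_ifs <;> norm_num
      · by_cases hA : v ∈ A <;> by_cases hB : v ∈ B <;> simp [hA, hB]
    · push Not at hv hw
      have hv' : ∀ v ∈ Y, h {v} = 0 := fun v hvY => (hh.val {v}).resolve_right (hv v hvY)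
      have hw' : ∀ v ∈ Y, h (Y.erase v) = 1 := fun v hvY =>
        (hh.val (Y.erase v)).resolve_left (hw v hvY)
      have hc3 : Y.card = 3 := by
        by_contra hc
        have h12 : Y.card = 1 ∨ Y.card = 2 := by omega
        rcases h12 with h12 | h12
        · obtain ⟨a, ha⟩ := Finset.card_eq_one.1 h12
          have := hv' a (by rw [ha]; exact Finset.mem_singleton_self a)
          rw [← ha, hY1'] at this
          exact one_ne_zero this
        · obtain ⟨a, b, hab, hab'⟩ := Finset.card_eq_two.1 h12
          have h1 := hw' a (by rw [hab']; simp)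
          have h2 : Y.erase a = {b} := by
            rw [hab']
            ext x
            simp only [Finset.mem_erase, Finset.mem_insert, Finset.mem_singleton]
            constructor
            · rintro ⟨h3, h4 | h4⟩
              · exact absurd h4 h3
              · exact h4
            · rintro rfl
              exact ⟨hab.symm, Or.inr rfl⟩
          rw [h2, hv' b (by rw [hab']; simp)] at h1
          exact zero_ne_one h1
      have h1 : h = thr Y := by
        funext A
        rw [← hdep A]
        unfold thr
        have hle : (A ∩ Y).card ≤ 3 := hc3 ▸ Finset.card_le_card Finset.inter_subset_right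
        by_cases h2 : 2 ≤ (A ∩ Y).card
        · rw [if_pos h2]
          by_cases h3 : (A ∩ Y).card = 3
          · have : A ∩ Y = Y := Finset.eq_of_subset_of_card_le Finset.inter_subset_right
              (by rw [h3, hc3])
            rw [this, hY1']
          · have h4 : (Y \ (A ∩ Y)).card = 1 := by
              rw [Finset.card_sdiff_of_subset Finset.inter_subset_right]
              omega
            obtain ⟨a, ha⟩ := Finset.card_eq_one.1 h4
            have haY : a ∈ Y \ (A ∩ Y) := by rw [ha]; exact Finset.mem_singleton_self a
            have h5 : Y.erase a = A ∩ Y := by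
              rw [Finset.erase_eq, ← ha, Finset.sdiff_sdiff_eq_self Finset.inter_subset_right]
            rw [← h5]
            exact hw' a (Finset.mem_sdiff.1 haY).1
        · rw [if_neg h2]
          by_cases h3 : (A ∩ Y).card = 0
          · rw [Finset.card_eq_zero.1 h3, h0']
          · have h4 : (A ∩ Y).card = 1 := by omega
            obtain ⟨a, ha⟩ := Finset.card_eq_one.1 h4
            have haY : a ∈ A ∩ Y := by rw [ha]; exact Finset.mem_singleton_self a
            rw [ha]
            exact hv' a (Finset.mem_inter.1 haY).2
      rw [h1]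
      exact Cls.two Y

theorem three : THREE_S := fun _ _ _ Y h hY hh hdep => three_aux Y.card Y h rfl hY hh hdep

end Pool.Agent.Lib.MP_17d4d1_pr.S.H28
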